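import Pool.Agent.N367.LE.Stm

/-!
Project LE, part GR: prime ideals of degree one (helper99).
-/

set_option autoImplicit false

namespace Pool.Agent.N99.LEgr

open H419R2 Pool.Agent.N911 Pool.Agent.N367.LE

section

variable {R m : ℤ}

/-- the reduction modulo a prime ideal of degree one -/
noncomputable def phi (r : ℕ) (w0 : ℤ) (hw : (r : ℤ) ∣ w0 ^ 2 + m * w0 - R) :
    QA R m →ₐ[ℤ] ZMod r :=
  QuadraticAlgebra.lift ⟨((-w0 : ℤ) : ZMod r), by
    have h1 : ((w0 ^ 2 + m * w0 - R : ℤ) : ZMod r) = 0 := (ZMod.intCast_zmod_eq_zero_iff_dvd _ _).2 hw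
    push_cast at h1
    simp only [zsmul_eq_mul]
    push_cast
    linear_combination h1⟩

theorem phi_apply (r : ℕ) (w0 : ℤ) (hw : (r : ℤ) ∣ w0 ^ 2 + m * w0 - R) (z : QA R m) :
    phi r w0 hw z = ((z.re - w0 * z.im : ℤ) : ZMod r) := by
  simp [phi, QuadraticAlgebra.lift, Algebra.smul_def]
  ring

theorem phi_surj (r : ℕ) (w0 : ℤ) (hw : (r : ℤ) ∣ w0 ^ 2 + m * w0 - R) :
    Function.Surjective (phi r w0 hw : QA R m →ₐ[ℤ] ZMod r) := by
  intro a
  obtain ⟨b, rfl⟩ := ZMod.intCast_surjective a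
  refine ⟨⟨b, 0⟩, ?_⟩
  rw [phi_apply]
  simp

/-- the prime ideal of degree one -/
noncomputable def PI (r : ℕ) (w0 : ℤ) (hw : (r : ℤ) ∣ w0 ^ 2 + m * w0 - R) : Ideal (QA R m) :=
  RingHom.ker (phi r w0 hw).toRingHom

theorem mem_PI (r : ℕ) (w0 : ℤ) (hw : (r : ℤ) ∣ w0 ^ 2 + m * w0 - R) (z : QA R m) :
    z ∈ PI r w0 hw ↔ (r : ℤ) ∣ z.re - w0 * z.im := by
  unfold PI
  rw [RingHom.mem_ker]
  change phi r w0 hw z = 0 ↔ _
  rw [phi_apply, ZMod.intCast_zmod_eq_zero_iff_dvd]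

theorem absNorm_PI [IsDedekindDomain (QA R m)] (r : ℕ) (w0 : ℤ)
    (hw : (r : ℤ) ∣ w0 ^ 2 + m * w0 - R) : Ideal.absNorm (PI r w0 hw : Ideal (QA R m)) = r := by
  rw [Ideal.absNorm_apply, Submodule.cardQuot_apply]
  have e : (QA R m ⧸ (PI r w0 hw : Ideal (QA R m))) ≃+* ZMod r :=
    RingHom.quotientKerEquivOfSurjective (f := (phi r w0 hw : QA R m →ₐ[ℤ] ZMod r).toRingHom)
      (phi_surj r w0 hw)
  rw [Nat.card_congr e.toEquiv, Nat.card_zmod]

theorem absNorm_span' [IsDedekindDomain (QA R m)] (c : ℕ) :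
    Ideal.absNorm (Ideal.span {((c : ℕ) : QA R m)}) = c ^ 2 := by
  rw [Ideal.absNorm_span_singleton, algebra_norm_eq, norm_natCast', Int.natAbs_pow,
    Int.natAbs_natCast]

end

/-- GR: prime ideals of degree one -/
theorem gr : S_GR := by
  intro n _ hded r hr h2
  haveI := Fact.mk hr
  have hD : (((n ^ 2 + 4 : ℕ) : ℤ)) = (n : ℤ) ^ 2 + 4 * 1 := by push_cast; ring
  constructor
  · intro hj
    have hne : (((n : ℤ) ^ 2 + 4 : ℤ) : ZMod r) ≠ 0 := by
      intro h0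
      rw [← jacobiSym.legendreSym.to_jacobiSym, legendreSym.eq_zero_iff r _ |>.2 h0] at hj
      exact absurd hj (by norm_num)
    have hsq : IsSquare ((((n ^ 2 + 4 : ℕ) : ℤ)) : ZMod r) := by
      have h1 := (legendreSym.eq_one_iff r hne).1 (by
        rw [jacobiSym.legendreSym.to_jacobiSym]; exact hj)
      have h3 : ((((n ^ 2 + 4 : ℕ) : ℤ)) : ZMod r) = (((n : ℤ) ^ 2 + 4 : ℤ) : ZMod r) := by
        push_cast; ring
      rw [h3]
      exact h1
    obtain ⟨w0, hw⟩ := root_of_square (R := 1) (m := (n : ℤ)) hr h2 hD hsq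
    refine ⟨PI r w0 hw, absNorm_PI r w0 hw, fun c hc => ?_⟩
    -- the norms
    have h3 : r ^ 2 = c ^ 2 := by
      have h4 := congrArg Ideal.absNorm hc
      rw [map_pow, absNorm_PI, absNorm_span'] at h4
      exact h4
    have h5 : r = c := Nat.pow_left_injective (n := 2) (by norm_num) h3
    subst h5
    have hπ : (⟨w0, 1⟩ : QA 1 (n : ℤ)) ∈ PI r w0 hw := by
      rw [mem_PI]
      simp
    have h6 : (⟨w0, 1⟩ : QA 1 (n : ℤ)) * ⟨w0, 1⟩ ∈ Ideal.span {((r : ℕ) : QA 1 (n : ℤ))} := by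
      rw [← hc, sq]
      exact Ideal.mul_mem_mul hπ hπ
    rw [Ideal.mem_span_singleton, natCast_dvd_iff] at h6
    have h7 := h6.2
    have h8 : ((⟨w0, 1⟩ : QA 1 (n : ℤ)) * ⟨w0, 1⟩).im = 2 * w0 + n := by
      rw [QuadraticAlgebra.im_mul]
      ring
    rw [h8] at h7
    apply hne
    rw [ZMod.intCast_zmod_eq_zero_iff_dvd]
    have h9 : (n : ℤ) ^ 2 + 4 = (2 * w0 + n) * (2 * w0 + n) - 4 * (w0 ^ 2 + n * w0 - 1) := by ring
    rw [h9]
    exact dvd_sub (h7.mul_right _) (hw.mul_left _)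
  · intro _ hrD
    have h0 : ((((n ^ 2 + 4 : ℕ) : ℤ)) : ZMod r) = 0 := by
      rw [ZMod.intCast_zmod_eq_zero_iff_dvd]
      exact_mod_cast hrD
    have hsq : IsSquare ((((n ^ 2 + 4 : ℕ) : ℤ)) : ZMod r) := by
      rw [h0]
      exact IsSquare.zero
    obtain ⟨w0, hw⟩ := root_of_square (R := 1) (m := (n : ℤ)) hr h2 hD hsq
    have hrp : Prime (r : ℤ) := Nat.prime_iff_prime_int.1 hr
    have h3 : (r : ℤ) ∣ 2 * w0 + n := by
      have h4 : (r : ℤ) ∣ (2 * w0 + n) ^ 2 := by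
        have h5 : (2 * w0 + n : ℤ) ^ 2 = ((n ^ 2 + 4 : ℕ) : ℤ) + 4 * (w0 ^ 2 + n * w0 - 1) := by
          push_cast; ring
        rw [h5]
        exact dvd_add (by exact_mod_cast hrD) (hw.mul_left _)
      exact hrp.dvd_of_dvd_pow h4
    have h4 : (r : ℤ) ∣ w0 ^ 2 + 1 := by
      have h5 : w0 ^ 2 + 1 = w0 * (2 * w0 + n) - (w0 ^ 2 + n * w0 - 1) := by ring
      rw [h5]
      exact dvd_sub (h3.mul_left _) hw
    refine ⟨PI r w0 hw, absNorm_PI r w0 hw, ?_⟩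
    have hle : (PI r w0 hw : Ideal (QA 1 (n : ℤ))) ^ 2 ≤ Ideal.span {((r : ℕ) : QA 1 (n : ℤ))} := by
      rw [sq, Ideal.mul_le]
      intro x hx y hy
      rw [mem_PI] at hx hy
      rw [Ideal.mem_span_singleton, natCast_dvd_iff, QuadraticAlgebra.re_mul,
        QuadraticAlgebra.im_mul]
      constructor
      · have e1 : x.re * y.re + 1 * x.im * y.im = (x.re - w0 * x.im) * y.re +
            w0 * x.im * (y.re - w0 * y.im) + (w0 ^ 2 + 1) * (x.im * y.im) := by ring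
        rw [e1]
        exact dvd_add (dvd_add (hx.mul_right _) (hy.mul_left _)) (h4.mul_right _)
      · have e1 : x.re * y.im + x.im * y.re + (n : ℤ) * x.im * y.im =
            (x.re - w0 * x.im) * y.im + x.im * (y.re - w0 * y.im) +
              (2 * w0 + n) * (x.im * y.im) := by ring
        rw [e1]
        exact dvd_add (dvd_add (hx.mul_right _) (hy.mul_left _)) (h3.mul_right _)
    obtain ⟨J, hJ⟩ := Ideal.dvd_iff_le.2 hle
    have h5 := congrArg Ideal.absNorm hJ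
    rw [map_pow, map_mul, absNorm_PI, absNorm_span'] at h5
    have h6 : Ideal.absNorm J = 1 := by
      have hpos : 0 < r ^ 2 := pow_pos hr.pos 2
      exact Nat.eq_of_mul_eq_mul_left hpos (by rw [← h5, mul_one])
    rw [Ideal.absNorm_eq_one_iff] at h6
    rw [hJ, h6, Ideal.mul_top]

end Pool.Agent.N99.LEgr
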