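import Mathlib
import Pool.Agent.N964.MX.Defs
import Pool.Agent.Erdos456.Mertens

set_option autoImplicit false

/-!
# Project MX, part D: the weights and the coefficients (helper99)
-/

namespace Pool.Agent.N99.MXD

open Finset MeasureTheory
open Pool.Agent.N964.MX

/-! ### the kernel -/

theorem cosh_sub_pos {x : ℝ} (hx : 0 < x) : 0 < Real.cosh x - 1 := by
  have := Real.one_lt_cosh.2 hx.ne'
  linarith

theorem coth_le {x : ℝ} (hx : 0 < x) : Real.sinh x / (Real.cosh x - 1) ≤ 1 + 2 / x := by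
  rw [div_le_iff₀ (cosh_sub_pos hx)]
  have hE : x + 1 ≤ Real.exp x := Real.add_one_le_exp x
  have hE0 : 0 < Real.exp x := Real.exp_pos x
  have hinv : Real.exp (-x) * Real.exp x = 1 := by rw [← Real.exp_add]; simp
  have h0 : 0 < Real.exp (-x) := Real.exp_pos _
  set E := Real.exp x with hEd
  set F := Real.exp (-x) with hFd
  rw [Real.sinh_eq, Real.cosh_eq, ← hEd, ← hFd]
  have hF : F = 1 / E := by field_simp; linarith
  rw [hF]
  have h1 : (E - 1 / E) / 2 = (E - 1) * (E + 1) / (2 * E) := by field_simp; ring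
  have h2 : (1 + 2 / x) * ((E + 1 / E) / 2 - 1) = (x + 2) * (E - 1) * (E - 1) / (2 * E * x) := by
    field_simp
    ring
  rw [h1, h2, div_le_div_iff₀ (by positivity) (by positivity)]
  have h3 : 0 ≤ E - 1 := by linarith
  have h4 : (E + 1) * x ≤ (x + 2) * (E - 1) := by nlinarith
  have h5 : 0 ≤ (E - 1) * (2 * E) := by positivity
  nlinarith [mul_le_mul_of_nonneg_left h4 h5]

theorem sinh_le {x y : ℝ} (hy : 0 ≤ y) : Real.sinh (x - y) ≤ Real.exp (-y) * Real.sinh x := by
  rw [Real.sinh_eq, Real.sinh_eq]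
  have e1 : Real.exp (x - y) = Real.exp (-y) * Real.exp x := by rw [← Real.exp_add]; congr 1; ring
  have e2 : Real.exp (-(x - y)) = Real.exp y * Real.exp (-x) := by rw [← Real.exp_add]; congr 1; ring
  rw [e1, e2]
  have h1 : Real.exp (-y) ≤ Real.exp y := Real.exp_le_exp.2 (by linarith)
  have h2 := Real.exp_pos (-x)
  nlinarith [mul_le_mul_of_nonneg_right h1 h2.le]

theorem kk_nonneg {l s u : ℝ} (hl : 0 < l) (hs : 0 < s) (hu : u ≤ l) : 0 ≤ kk l s u := by
  unfold kk
  apply div_nonneg
  · rw [Real.sinh_nonneg_iff]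
    exact mul_nonneg hs.le (by linarith)
  · exact (cosh_sub_pos (mul_pos hl hs)).le

theorem kk_le {l s u : ℝ} (hl : 0 < l) (hs : 0 < s) (hu : 0 < u) :
    kk l s u ≤ Real.exp (-(s * u)) + 2 / l * (1 / s - u / (1 + s * u)) := by
  have hls : 0 < l * s := mul_pos hl hs
  have hsu : 0 < s * u := mul_pos hs hu
  have h1 : kk l s u ≤ Real.exp (-(s * u)) * (Real.sinh (l * s) / (Real.cosh (l * s) - 1)) := by
    unfold kk
    rw [← mul_div_assoc]
    apply div_le_div_of_nonneg_right _ (cosh_sub_pos hls).le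
    rw [show s * (l - u) = l * s - s * u by ring]
    exact sinh_le hsu.le
  have h2 : Real.exp (-(s * u)) * (Real.sinh (l * s) / (Real.cosh (l * s) - 1)) ≤
      Real.exp (-(s * u)) * (1 + 2 / (l * s)) :=
    mul_le_mul_of_nonneg_left (coth_le hls) (Real.exp_pos _).le
  have h3 : Real.exp (-(s * u)) ≤ 1 / (1 + s * u) := by
    rw [Real.exp_neg, ← one_div]
    apply one_div_le_one_div_of_le (by positivity)
    linarith [Real.add_one_le_exp (s * u)]
  have h4 : (1 / s - u / (1 + s * u)) = 1 / s * (1 / (1 + s * u)) := by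
    field_simp
    ring
  rw [h4]
  have h5 : 2 / (l * s) = 2 / l * (1 / s) := by field_simp
  calc kk l s u ≤ Real.exp (-(s * u)) * (1 + 2 / (l * s)) := h1.trans h2
    _ = Real.exp (-(s * u)) + 2 / l * (1 / s * Real.exp (-(s * u))) := by rw [h5]; ring
    _ ≤ Real.exp (-(s * u)) + 2 / l * (1 / s * (1 / (1 + s * u))) := by
        have : 0 ≤ 2 / l := by positivity
        have : 0 ≤ 1 / s := by positivity
        gcongr

theorem kk_cont {l u δ : ℝ} (hl : 0 < l) (hδ : 0 < δ) :
    ContinuousOn (fun s => kk l s u) (Set.Icc δ 2) := by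
  unfold kk
  apply ContinuousOn.div
  · exact (Real.continuous_sinh.comp (continuous_id.mul continuous_const)).continuousOn
  · exact ((Real.continuous_cosh.comp (continuous_const.mul continuous_id)).sub
      continuous_const).continuousOn
  · intro s hs
    exact (cosh_sub_pos (mul_pos hl (lt_of_lt_of_le hδ hs.1))).ne'

/-- (1) the integrated weight -/
theorem ww_bound {l δ u : ℝ} (hl : 1 ≤ l) (hδ : 0 < δ) (hδ1 : δ ≤ 1) (hu : 0 < u) (hul : u ≤ l) :
    0 ≤ ww l δ u ∧ ww l δ u ≤ 3 * (1 / u + Dd l δ / l) := by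
  have hl0 : 0 < l := by linarith
  have hδ2 : δ ≤ 2 := by linarith
  constructor
  · unfold ww
    apply intervalIntegral.integral_nonneg hδ2
    intro s hs
    exact kk_nonneg hl0 (lt_of_lt_of_le hδ hs.1) hul
  · have hint : IntervalIntegrable (fun s => kk l s u) volume δ 2 := by
      apply ContinuousOn.intervalIntegrable
      rw [Set.uIcc_of_le hδ2]
      exact kk_cont hl0 hδ
    have hgcont : ContinuousOn (fun s : ℝ => Real.exp (-(s * u)) + 2 / l * (1 / s - u / (1 + s * u)))
        (Set.Icc δ 2) := by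
      apply ContinuousOn.add
      · fun_prop
      · apply ContinuousOn.mul continuousOn_const
        apply ContinuousOn.sub
        · apply ContinuousOn.div continuousOn_const continuousOn_id
          intro s hs
          exact (lt_of_lt_of_le hδ hs.1).ne'
        · apply ContinuousOn.div continuousOn_const (by fun_prop)
          intro s hs
          have : 0 < s := lt_of_lt_of_le hδ hs.1
          positivity
    have hgint : IntervalIntegrable
        (fun s : ℝ => Real.exp (-(s * u)) + 2 / l * (1 / s - u / (1 + s * u))) volume δ 2 := by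
      apply ContinuousOn.intervalIntegrable
      rw [Set.uIcc_of_le hδ2]
      exact hgcont
    have h1 : ww l δ u ≤ ∫ s in δ..2, (Real.exp (-(s * u)) + 2 / l * (1 / s - u / (1 + s * u))) := by
      unfold ww
      apply intervalIntegral.integral_mono_on hδ2 hint hgint
      intro s hs
      exact kk_le hl0 (lt_of_lt_of_le hδ hs.1) hu
    have h2 : ∫ s in δ..2, (Real.exp (-(s * u)) + 2 / l * (1 / s - u / (1 + s * u))) =
        (-(Real.exp (-(2 * u)) / u) + 2 / l * (Real.log 2 - Real.log (1 + 2 * u))) -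
        (-(Real.exp (-(δ * u)) / u) + 2 / l * (Real.log δ - Real.log (1 + δ * u))) := by
      apply intervalIntegral.integral_eq_sub_of_hasDerivAt
        (f := fun s => -(Real.exp (-(s * u)) / u) + 2 / l * (Real.log s - Real.log (1 + s * u)))
      · intro s hs
        rw [Set.uIcc_of_le hδ2] at hs
        have hs0 : 0 < s := lt_of_lt_of_le hδ hs.1
        have hsu : 0 < 1 + s * u := by positivity
        have d1 : HasDerivAt (fun s : ℝ => -(s * u)) (-u) s :=
          (hasDerivAt_mul_const (x := s) u).neg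
        have d2 : HasDerivAt (fun s : ℝ => -(Real.exp (-(s * u)) / u)) (Real.exp (-(s * u))) s := by
          have := (d1.exp.div_const u).neg
          have e : -(Real.exp (-(s * u)) * -u / u) = Real.exp (-(s * u)) := by
            field_simp
          rw [e] at this
          exact this
        have d3 : HasDerivAt (fun s : ℝ => 1 + s * u) u s := by
          simpa using ((hasDerivAt_id s).mul_const u).const_add 1
        have d4 : HasDerivAt (fun s : ℝ => Real.log (1 + s * u)) (u / (1 + s * u)) s := d3.log hsu.ne'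
        have d5 : HasDerivAt Real.log (1 / s) s := by
          rw [one_div]; exact Real.hasDerivAt_log hs0.ne'
        exact d2.add ((d5.sub d4).const_mul (2 / l))
      · exact hgint
    rw [h2] at h1
    refine h1.trans ?_
    have hu2 : 0 < 1 + 2 * u := by positivity
    have huδ : 0 < 1 + δ * u := by positivity
    have hlδ : 0 < l * δ := by positivity
    have hD : 0 ≤ Dd l δ := by
      unfold Dd
      apply Real.log_nonneg
      have : 0 ≤ 1 / (l * δ) := by positivity
      linarith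
    -- the logarithms
    have h3 : Real.log 2 - Real.log (1 + 2 * u) - (Real.log δ - Real.log (1 + δ * u)) ≤
        l / u + Dd l δ := by
      have e1 : Real.log 2 - Real.log (1 + 2 * u) - (Real.log δ - Real.log (1 + δ * u)) =
          Real.log (2 * (1 + δ * u) / ((1 + 2 * u) * δ)) := by
        rw [Real.log_div (by positivity) (by positivity), Real.log_mul (by norm_num) huδ.ne',
          Real.log_mul hu2.ne' hδ.ne']
        ring
      have e2 : 2 * (1 + δ * u) / ((1 + 2 * u) * δ) ≤ l / u * (1 + 1 / (l * δ)) := by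
        have e3 : l / u * (1 + 1 / (l * δ)) = (l * δ + 1) / (u * δ) := by
          field_simp
        rw [e3, div_le_div_iff₀ (by positivity) (by positivity)]
        have e4 : 2 * u * δ * (1 + δ * u) ≤ (1 + 2 * u) * δ * (l * δ + 1) := by
          have e5 : δ * u ≤ l * δ := by nlinarith
          have e6 : 2 * u * δ ≤ (1 + 2 * u) * δ := by nlinarith
          exact mul_le_mul e6 (by linarith) (by positivity) (by positivity)
        nlinarith
      have e7 : Real.log (l / u * (1 + 1 / (l * δ))) = Real.log (l / u) + Dd l δ := by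
        unfold Dd
        rw [Real.log_mul (by positivity) (by positivity)]
      have e8 : Real.log (l / u) ≤ l / u := by
        have := Real.log_le_sub_one_of_pos (show 0 < l / u by positivity)
        linarith
      rw [e1]
      calc Real.log (2 * (1 + δ * u) / ((1 + 2 * u) * δ)) ≤ Real.log (l / u * (1 + 1 / (l * δ))) :=
            Real.log_le_log (by positivity) e2
        _ = Real.log (l / u) + Dd l δ := e7
        _ ≤ l / u + Dd l δ := by linarith
    have h4 : Real.exp (-(δ * u)) / u ≤ 1 / u := by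
      apply div_le_div_of_nonneg_right _ hu.le
      exact Real.exp_le_one_iff.2 (by nlinarith)
    have h5 : 0 ≤ Real.exp (-(2 * u)) / u := by positivity
    have h6 : 2 / l * (Real.log 2 - Real.log (1 + 2 * u)) - 2 / l * (Real.log δ - Real.log (1 + δ * u)) ≤
        2 / l * (l / u + Dd l δ) := by
      rw [← mul_sub]
      exact mul_le_mul_of_nonneg_left h3 (by positivity)
    have h7 : 2 / l * (l / u + Dd l δ) = 2 * (1 / u) + 2 * (Dd l δ / l) := by
      field_simp
    have h8 : 0 ≤ Dd l δ / l := by positivity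
    rw [h7] at h6
    linarith

/-! ### sums over primes -/

theorem Pl_eq (l : ℝ) : Pl l = (Icc 1 ⌊Real.exp l⌋₊).filter Nat.Prime := by
  unfold Pl
  ext p
  simp only [mem_filter, mem_range, mem_Icc]
  constructor
  · rintro ⟨h1, h2⟩
    exact ⟨⟨h2.one_le, by omega⟩, h2⟩
  · rintro ⟨⟨_, h1⟩, h2⟩
    exact ⟨by omega, h2⟩

theorem log_le_l {l : ℝ} {n : ℕ} (hn : 1 ≤ n) (h : n ≤ ⌊Real.exp l⌋₊) : Real.log n ≤ l := by
  rw [Real.log_le_iff_le_exp (by exact_mod_cast hn)]
  exact le_trans (by exact_mod_cast h) (Nat.floor_le (Real.exp_pos _).le)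

theorem sum_log : ∃ C : ℝ, 0 ≤ C ∧ ∀ l : ℝ, 1 ≤ l → ∑ p ∈ Pl l, Real.log p / p ≤ l + C := by
  obtain ⟨C, hC⟩ := Pool.Agent.Erdos456.Mert.mertens_log
  have hC0 : 0 ≤ C := (abs_nonneg _).trans (hC 1 le_rfl)
  refine ⟨C, hC0, fun l hl => ?_⟩
  have hX : 1 ≤ ⌊Real.exp l⌋₊ := by
    rw [Nat.one_le_floor_iff]
    exact Real.one_le_exp (by linarith)
  have h := (abs_le.1 (hC _ hX)).2
  have h2 := log_le_l hX le_rfl
  rw [Pl_eq]
  linarith

theorem sum_inv : ∃ C : ℝ, 0 ≤ C ∧ ∀ l : ℝ, 1 ≤ l → ∑ p ∈ Pl l, 1 / (p : ℝ) ≤ Real.log l + C := by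
  obtain ⟨C, hC⟩ := Pool.Agent.Erdos456.Mert.mertens_inv
  have hC0 : 0 ≤ C := (abs_nonneg _).trans (hC 3 le_rfl)
  refine ⟨C + 1, by linarith, fun l hl => ?_⟩
  set X := ⌊Real.exp l⌋₊ with hX
  have hX1 : 1 ≤ X := by
    rw [hX, Nat.one_le_floor_iff]
    exact Real.one_le_exp (by linarith)
  have hll : 0 ≤ Real.log l := Real.log_nonneg hl
  have hmono : ∑ p ∈ (Icc 1 X).filter Nat.Prime, 1 / (p : ℝ) ≤
      ∑ p ∈ (Icc 1 (max X 3)).filter Nat.Prime, 1 / (p : ℝ) := by
    refine sum_le_sum_of_subset_of_nonneg (filter_subset_filter _ (Icc_subset_Icc le_rfl (le_max_left _ _)))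
      fun _ _ _ => by positivity
  have h := (abs_le.1 (hC (max X 3) (le_max_right _ _))).2
  have h2 : Real.log (Real.log ((max X 3 : ℕ) : ℝ)) ≤ Real.log l + 1 := by
    rcases le_total 3 X with h3 | h3
    · rw [max_eq_left h3]
      have h4 := log_le_l hX1 le_rfl
      have h5 : 0 < Real.log (X : ℝ) := Real.log_pos (by
        have : (3 : ℝ) ≤ X := by exact_mod_cast h3
        linarith)
      have := Real.log_le_log h5 h4
      linarith
    · rw [max_eq_right h3]
      have h4 : Real.log ((3 : ℕ) : ℝ) ≤ 2 := by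
        have := Real.log_le_sub_one_of_pos (show (0 : ℝ) < ((3 : ℕ) : ℝ) by norm_num)
        norm_num at this ⊢
        linarith
      have h5 : 0 < Real.log ((3 : ℕ) : ℝ) := Real.log_pos (by norm_num)
      have h6 := Real.log_le_sub_one_of_pos h5
      linarith
  rw [Pl_eq]
  linarith

theorem sum_inv_sqrt (N : ℕ) : ∑ n ∈ Finset.Icc 1 N, 1 / Real.sqrt n ≤ 2 * Real.sqrt N := by
  induction N with
  | zero => simp
  | succ N ih =>
    rw [sum_Icc_succ_top (by omega)]
    have h1 : 1 / Real.sqrt ((N + 1 : ℕ) : ℝ) ≤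
        2 * Real.sqrt ((N + 1 : ℕ) : ℝ) - 2 * Real.sqrt N := by
      push_cast
      set a := Real.sqrt ((N : ℝ) + 1) with ha
      set b := Real.sqrt (N : ℝ) with hb
      have ha0 : 0 < a := Real.sqrt_pos.2 (by positivity)
      have hb0 : 0 ≤ b := Real.sqrt_nonneg _
      have ha2 : a ^ 2 = N + 1 := Real.sq_sqrt (by positivity)
      have hb2 : b ^ 2 = N := Real.sq_sqrt (by positivity)
      rw [div_le_iff₀ ha0]
      nlinarith [sq_nonneg (a - b)]
    linarith

/-- the bound for one coefficient -/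
theorem cc_bound {l δ : ℝ} (hl : 1 ≤ l) (hδ : 0 < δ) (hδ1 : δ ≤ 1) {p : ℕ} (hp : p ∈ Pl l) :
    0 ≤ cc l δ p ∧ cc l δ p ≤ 3 * (1 / Real.sqrt p) + 3 * (Dd l δ / l) * (Real.log p / Real.sqrt p) := by
  rw [Pl_eq, mem_filter, mem_Icc] at hp
  have hp2 : (2 : ℝ) ≤ p := by exact_mod_cast hp.2.two_le
  have hlp : 0 < Real.log p := Real.log_pos (by linarith)
  have hll : Real.log p ≤ l := log_le_l hp.1.1 hp.1.2
  have hs : 0 < Real.sqrt p := Real.sqrt_pos.2 (by linarith)
  obtain ⟨h1, h2⟩ := ww_bound hl hδ hδ1 hlp hll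
  unfold cc
  refine ⟨by positivity, ?_⟩
  calc Real.log p / Real.sqrt p * ww l δ (Real.log p)
      ≤ Real.log p / Real.sqrt p * (3 * (1 / Real.log p + Dd l δ / l)) :=
        mul_le_mul_of_nonneg_left h2 (by positivity)
    _ = _ := by field_simp

theorem geo (r : ℝ) (h0 : 0 ≤ r) (h1 : r ≤ 3 / 4) (J : ℕ) :
    ∑ k ∈ Icc 2 (J + 1), r ^ k ≤ 4 * r ^ 2 - 4 * r ^ (J + 2) := by
  induction J with
  | zero => simp
  | succ J ih =>
    rw [sum_Icc_succ_top (by omega)]
    have h2 : 0 ≤ r ^ (J + 2) := pow_nonneg h0 _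
    have h3 : r ^ (J + 1 + 1) = r ^ (J + 2) := by ring
    have h4 : r ^ (J + 1 + 2) = r ^ (J + 2) * r := by ring
    rw [h3, h4]
    nlinarith

theorem geo' (r : ℝ) (h0 : 0 ≤ r) (h1 : r ≤ 3 / 4) (J : ℕ) : ∑ k ∈ Icc 2 J, r ^ k ≤ 4 * r ^ 2 := by
  rcases J with _ | J
  · simp; positivity
  · have := geo r h0 h1 J
    have h2 : 0 ≤ r ^ (J + 2) := pow_nonneg h0 _
    linarith

theorem Dd_nonneg {l δ : ℝ} (hl : 1 ≤ l) (hδ : 0 < δ) : 0 ≤ Dd l δ := by
  unfold Dd
  apply Real.log_nonneg
  have : 0 ≤ 1 / (l * δ) := by positivity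
  linarith

/-- (4) the prime powers that are not primes -/
theorem prime_powers {l δ : ℝ} (hl : 1 ≤ l) (hδ : 0 < δ) (hδ1 : δ ≤ 1) :
    ∑ n ∈ (Icc 1 ⌊Real.exp l⌋₊).filter (fun n => ¬ n.Prime),
      ArithmeticFunction.vonMangoldt n / Real.sqrt n * ww l δ (Real.log n) ≤
    12 * ∑ p ∈ Pl l, 1 / (p : ℝ) + 12 * (Dd l δ / l) * ∑ p ∈ Pl l, Real.log p / p := by
  classical
  set X := ⌊Real.exp l⌋₊ with hX
  set J := Nat.log 2 X with hJ
  have hD := Dd_nonneg hl hδ
  have hDl : 0 ≤ Dd l δ / l := by positivity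
  set A := (Icc 1 X).filter (fun n => ¬ n.Prime) with hA
  set f : ℕ → ℝ := fun n => ArithmeticFunction.vonMangoldt n / Real.sqrt n * ww l δ (Real.log n) with hf
  set g : ℕ → ℝ := fun n => ArithmeticFunction.vonMangoldt n / Real.sqrt n *
    (3 * (1 / Real.log n + Dd l δ / l)) with hg
  have hv : ∀ n : ℕ, 0 ≤ ArithmeticFunction.vonMangoldt n / Real.sqrt n := fun n =>
    div_nonneg ArithmeticFunction.vonMangoldt_nonneg (Real.sqrt_nonneg _)
  have hg0 : ∀ n, 0 ≤ g n := by
    intro n
    have : 0 ≤ Real.log n := Real.log_natCast_nonneg n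
    exact mul_nonneg (hv n) (by positivity)
  have e1 : ∑ n ∈ A, f n = ∑ n ∈ A.filter (fun n => ArithmeticFunction.vonMangoldt n ≠ 0), f n := by
    symm
    refine sum_filter_of_ne fun n _ hn h => hn ?_
    simp [hf, h]
  have e2 : ∑ n ∈ A.filter (fun n => ArithmeticFunction.vonMangoldt n ≠ 0), f n ≤
      ∑ n ∈ A.filter (fun n => ArithmeticFunction.vonMangoldt n ≠ 0), g n := by
    refine sum_le_sum fun n hn => ?_
    rw [mem_filter, hA, mem_filter, mem_Icc] at hn
    obtain ⟨⟨⟨h1, h2⟩, h3⟩, h4⟩ := hn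
    have hn2 : 2 ≤ n := by
      rcases Nat.lt_or_ge n 2 with h | h
      · exfalso
        have : n = 1 := by omega
        subst this
        exact h4 ArithmeticFunction.vonMangoldt_apply_one
      · exact h
    have hln : 0 < Real.log n := Real.log_pos (by
      have : (2 : ℝ) ≤ n := by exact_mod_cast hn2
      linarith)
    exact mul_le_mul_of_nonneg_left (ww_bound hl hδ hδ1 hln (log_le_l h1 h2)).2 (hv n)
  have hsub : A.filter (fun n => ArithmeticFunction.vonMangoldt n ≠ 0) ⊆
      (Pl l ×ˢ Icc 2 J).image (fun q : ℕ × ℕ => q.1 ^ q.2) := by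
    intro n hn
    rw [mem_filter, hA, mem_filter, mem_Icc] at hn
    obtain ⟨⟨⟨h1, h2⟩, h3⟩, h4⟩ := hn
    rw [ArithmeticFunction.vonMangoldt_ne_zero_iff, isPrimePow_nat_iff] at h4
    obtain ⟨p, k, hp, hk, rfl⟩ := h4
    rw [mem_image]
    refine ⟨(p, k), ?_, rfl⟩
    rw [mem_product, Pl_eq, mem_filter, mem_Icc, mem_Icc]
    have hk2 : 2 ≤ k := by
      rcases Nat.lt_or_ge k 2 with h | h
      · exfalso
        have : k = 1 := by omega
        subst this
        exact h3 (by simpa using hp)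
      · exact h
    refine ⟨⟨⟨hp.one_le, ?_⟩, hp⟩, hk2, ?_⟩
    · exact (Nat.le_self_pow (by omega) p).trans h2
    · rw [hJ]
      refine Nat.le_log_of_pow_le (by norm_num) ?_
      exact (Nat.pow_le_pow_left hp.two_le k).trans h2
  have h5 : ∀ q ∈ Pl l ×ˢ Icc 2 J, g (q.1 ^ q.2) ≤
      (1 / Real.sqrt q.1) ^ q.2 * (3 + 3 * (Dd l δ / l) * Real.log q.1) := by
    rintro ⟨p, k⟩ hq
    rw [mem_product, Pl_eq, mem_filter, mem_Icc, mem_Icc] at hq
    obtain ⟨⟨⟨h1, h2⟩, hp⟩, h3, h4⟩ := hq
    simp only at h1 h2 hp h3 h4 ⊢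
    have hp2 : (2 : ℝ) ≤ p := by exact_mod_cast hp.two_le
    have hlp : 0 < Real.log p := Real.log_pos (by linarith)
    have hs : 0 < Real.sqrt p := Real.sqrt_pos.2 (by linarith)
    have hk1 : (1 : ℝ) ≤ k := by exact_mod_cast (by omega : 1 ≤ k)
    have e3 : ArithmeticFunction.vonMangoldt (p ^ k) = Real.log p := by
      rw [ArithmeticFunction.vonMangoldt_apply_pow (by omega),
        ArithmeticFunction.vonMangoldt_apply_prime hp]
    have e4 : Real.sqrt ((p ^ k : ℕ) : ℝ) = Real.sqrt p ^ k := by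
      push_cast
      rw [Real.sqrt_eq_iff_mul_self_eq (by positivity) (by positivity), ← mul_pow,
        Real.mul_self_sqrt (by linarith)]
    have e5 : Real.log ((p ^ k : ℕ) : ℝ) = k * Real.log p := by
      push_cast
      rw [Real.log_pow]
    rw [hg]
    simp only
    rw [e3, e4, e5, one_div_pow]
    have e6 : Real.log p / Real.sqrt p ^ k * (3 * (1 / (k * Real.log p) + Dd l δ / l)) =
        1 / Real.sqrt p ^ k * (3 * (1 / k) + 3 * (Dd l δ / l) * Real.log p) := by
      field_simp
    rw [e6]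
    refine mul_le_mul_of_nonneg_left ?_ (by positivity)
    have : 1 / (k : ℝ) ≤ 1 := by
      rw [div_le_one (by linarith)]; exact hk1
    linarith
  calc ∑ n ∈ A, f n ≤ ∑ n ∈ A.filter (fun n => ArithmeticFunction.vonMangoldt n ≠ 0), g n := by
        rw [e1]; exact e2
    _ ≤ ∑ n ∈ (Pl l ×ˢ Icc 2 J).image (fun q : ℕ × ℕ => q.1 ^ q.2), g n :=
        sum_le_sum_of_subset_of_nonneg hsub fun n _ _ => hg0 n
    _ ≤ ∑ q ∈ Pl l ×ˢ Icc 2 J, g (q.1 ^ q.2) :=
        sum_image_le_of_nonneg (g := fun q : ℕ × ℕ => q.1 ^ q.2) (fun i _ => hg0 _)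
    _ ≤ ∑ q ∈ Pl l ×ˢ Icc 2 J, (1 / Real.sqrt q.1) ^ q.2 * (3 + 3 * (Dd l δ / l) * Real.log q.1) :=
        sum_le_sum h5
    _ = ∑ p ∈ Pl l, (∑ k ∈ Icc 2 J, (1 / Real.sqrt p) ^ k) * (3 + 3 * (Dd l δ / l) * Real.log p) := by
        rw [sum_product]
        exact sum_congr rfl fun p _ => by rw [sum_mul]
    _ ≤ ∑ p ∈ Pl l, (4 * (1 / (p : ℝ))) * (3 + 3 * (Dd l δ / l) * Real.log p) := by
        refine sum_le_sum fun p hp => ?_
        rw [Pl_eq, mem_filter, mem_Icc] at hp
        have hp2 : (2 : ℝ) ≤ p := by exact_mod_cast hp.2.two_le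
        have hlp : 0 < Real.log p := Real.log_pos (by linarith)
        have hs : 0 < Real.sqrt p := Real.sqrt_pos.2 (by linarith)
        have h6 : 1 / Real.sqrt p ≤ 3 / 4 := by
          rw [div_le_div_iff₀ hs (by norm_num)]
          have : (4 / 3 : ℝ) ≤ Real.sqrt p := by
            apply Real.le_sqrt_of_sq_le
            norm_num
            linarith
          linarith
        have h7 := geo' (1 / Real.sqrt p) (by positivity) h6 J
        have h8 : (1 / Real.sqrt p) ^ 2 = 1 / (p : ℝ) := by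
          rw [one_div_pow, Real.sq_sqrt (by linarith)]
        rw [h8] at h7
        exact mul_le_mul_of_nonneg_right h7 (by positivity)
    _ = 12 * ∑ p ∈ Pl l, 1 / (p : ℝ) + 12 * (Dd l δ / l) * ∑ p ∈ Pl l, Real.log p / p := by
        rw [mul_sum, mul_sum, ← sum_add_distrib]
        exact sum_congr rfl fun p _ => by ring

/-- MX/D -/
theorem coef : S_coef := by
  obtain ⟨C0, hC0, h0⟩ := sum_log
  obtain ⟨C1, hC1, h1⟩ := sum_inv
  refine ⟨100 * (1 + C0 + C1), by positivity, ?_⟩
  intro l δ hl hδ hδ1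
  have hl0 : 0 < l := by linarith
  have hD := Dd_nonneg hl hδ
  have hDl : 0 ≤ Dd l δ / l := by positivity
  have hDle : Dd l δ / l ≤ Dd l δ := div_le_self hD hl
  have hll : 0 ≤ Real.log l := Real.log_nonneg hl
  set K := 1 + C0 + C1 with hK
  have hK1 : 1 ≤ K := by linarith
  set D := Dd l δ with hDdef
  have s0 := h0 l hl
  have s1 := h1 l hl
  -- `D / l * sum log p / p`
  have hA : D / l * ∑ p ∈ Pl l, Real.log p / p ≤ D * K := by
    calc D / l * ∑ p ∈ Pl l, Real.log p / p ≤ D / l * (l + C0) := mul_le_mul_of_nonneg_left s0 hDl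
      _ = D * (1 + C0 / l) := by field_simp
      _ ≤ D * K := by
          refine mul_le_mul_of_nonneg_left ?_ hD
          have : C0 / l ≤ C0 := div_le_self hC0 hl
          linarith
  refine ⟨?_, ?_, ?_, ?_⟩
  · intro u hu hul
    obtain ⟨h2, h3⟩ := ww_bound hl hδ hδ1 hu hul
    refine ⟨h2, h3.trans ?_⟩
    refine mul_le_mul_of_nonneg_right (by linarith) ?_
    have : 0 < 1 / u := by positivity
    linarith
  · calc ∑ p ∈ Pl l, cc l δ p ^ 2
        ≤ ∑ p ∈ Pl l, (18 * (1 / (p : ℝ)) + 18 * (D * (D / l)) * (Real.log p / p)) := by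
          refine sum_le_sum fun p hp => ?_
          obtain ⟨c1, c2⟩ := cc_bound hl hδ hδ1 hp
          rw [Pl_eq, mem_filter, mem_Icc] at hp
          have hp2 : (2 : ℝ) ≤ p := by exact_mod_cast hp.2.two_le
          have hlp : 0 < Real.log p := Real.log_pos (by linarith)
          have hlpl : Real.log p ≤ l := log_le_l hp.1.1 hp.1.2
          have hs : 0 < Real.sqrt p := Real.sqrt_pos.2 (by linarith)
          set a := 3 * (1 / Real.sqrt p) with ha
          set b := 3 * (D / l) * (Real.log p / Real.sqrt p) with hb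
          have h4 : cc l δ p ^ 2 ≤ (a + b) ^ 2 := pow_le_pow_left₀ c1 c2 2
          have h5 : (a + b) ^ 2 ≤ 2 * a ^ 2 + 2 * b ^ 2 := by nlinarith [sq_nonneg (a - b)]
          have h6 : a ^ 2 = 9 * (1 / (p : ℝ)) := by
            rw [ha, mul_pow, one_div_pow, Real.sq_sqrt (by linarith)]; norm_num
          have h7 : b ^ 2 ≤ 9 * (D * (D / l)) * (Real.log p / p) := by
            rw [hb, mul_pow, mul_pow, div_pow (Real.log p), Real.sq_sqrt (by linarith)]
            have e : (D / l) ^ 2 * (Real.log p ^ 2 / p) = (D / l) * (D / l * Real.log p) * (Real.log p / p) := by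
              ring
            have e2 : D / l * Real.log p ≤ D := by
              calc D / l * Real.log p ≤ D / l * l := mul_le_mul_of_nonneg_left hlpl hDl
                _ = D := by field_simp
            have e3 : (D / l) * (D / l * Real.log p) * (Real.log p / p) ≤
                (D / l) * D * (Real.log p / p) := by
              refine mul_le_mul_of_nonneg_right ?_ (by positivity)
              exact mul_le_mul_of_nonneg_left e2 hDl
            nlinarith
          linarith
      _ = 18 * ∑ p ∈ Pl l, 1 / (p : ℝ) + 18 * (D * (D / l * ∑ p ∈ Pl l, Real.log p / p)) := by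
          rw [sum_add_distrib, ← mul_sum, ← mul_sum]; ring
      _ ≤ 18 * (Real.log l + C1) + 18 * (D * (D * K)) := by
          have := mul_le_mul_of_nonneg_left hA hD
          linarith
      _ ≤ 100 * K * (1 + Real.log l + D ^ 2) := by
          have e1 : 0 ≤ K * Real.log l := by positivity
          have e2 : 0 ≤ (K - 1) * Real.log l := mul_nonneg (by linarith) hll
          have e3 : 0 ≤ K * D ^ 2 := by positivity
          nlinarith
  · have hX1 : (0 : ℝ) ≤ ⌊Real.exp l⌋₊ := by positivity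
    have hsq : Real.sqrt ((⌊Real.exp l⌋₊ : ℕ) : ℝ) ≤ Real.exp (l / 2) := by
      rw [Real.sqrt_le_left (Real.exp_pos _).le, ← Real.exp_nat_mul]
      refine (Nat.floor_le (Real.exp_pos _).le).trans ?_
      apply Real.exp_le_exp.2
      push_cast
      linarith
    calc ∑ p ∈ Pl l, cc l δ p ≤ ∑ p ∈ Pl l, (3 + 3 * D) * (1 / Real.sqrt p) := by
          refine sum_le_sum fun p hp => ?_
          obtain ⟨c1, c2⟩ := cc_bound hl hδ hδ1 hp
          rw [Pl_eq, mem_filter, mem_Icc] at hp
          have hp2 : (2 : ℝ) ≤ p := by exact_mod_cast hp.2.two_le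
          have hlpl : Real.log p ≤ l := log_le_l hp.1.1 hp.1.2
          have hs : 0 < Real.sqrt p := Real.sqrt_pos.2 (by linarith)
          refine c2.trans ?_
          have e2 : D / l * Real.log p ≤ D := by
            calc D / l * Real.log p ≤ D / l * l := mul_le_mul_of_nonneg_left hlpl hDl
              _ = D := by field_simp
          have e3 : 3 * (D / l) * (Real.log p / Real.sqrt p) =
              3 * (D / l * Real.log p) * (1 / Real.sqrt p) := by ring
          rw [e3, add_mul]
          have e4 : 0 ≤ 1 / Real.sqrt p := by positivity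
          have e5 := mul_le_mul_of_nonneg_right (mul_le_mul_of_nonneg_left e2 (by norm_num : (0 : ℝ) ≤ 3)) e4
          linarith
      _ = (3 + 3 * D) * ∑ p ∈ Pl l, 1 / Real.sqrt p := by rw [mul_sum]
      _ ≤ (3 + 3 * D) * ∑ n ∈ Icc 1 ⌊Real.exp l⌋₊, 1 / Real.sqrt n := by
          refine mul_le_mul_of_nonneg_left ?_ (by positivity)
          rw [Pl_eq]
          exact sum_le_sum_of_subset_of_nonneg (filter_subset _ _) fun _ _ _ => by positivity
      _ ≤ (3 + 3 * D) * (2 * Real.exp (l / 2)) := by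
          refine mul_le_mul_of_nonneg_left ?_ (by positivity)
          have := sum_inv_sqrt ⌊Real.exp l⌋₊
          linarith
      _ ≤ 100 * K * Real.exp (l / 2) * (1 + D) := by
          have e1 : 0 < Real.exp (l / 2) := Real.exp_pos _
          have e2 : 0 ≤ Real.exp (l / 2) * (1 + D) := by positivity
          nlinarith [mul_nonneg (sub_nonneg.2 hK1) e2]
  · refine (prime_powers hl hδ hδ1).trans ?_
    have e1 : 12 * (D / l) * ∑ p ∈ Pl l, Real.log p / p = 12 * (D / l * ∑ p ∈ Pl l, Real.log p / p) := by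
      ring
    rw [e1]
    have e2 : 0 ≤ (K - 1) * Real.log l := mul_nonneg (by linarith) hll
    have e3 : 0 ≤ K * D := by positivity
    nlinarith

end Pool.Agent.N99.MXD
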