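import Pool.Agent.N646.SF.Stm2
import Pool.Agent.N327.SF_CNT

/-! # Project SF (helper646), CNTG (helper99, after helper327): counting the solutions, different sets -/

set_option autoImplicit false

namespace Pool.Agent.N99.SF_CNTG

open Finset Pool.Agent.N646.SF
open Pool.Agent.N327.SF_CNT (shift_count E_card)

/-- the solutions -/
def ZZ {k p : ℕ} (X : Fin p → Finset ℤ) (v : Fin (k + 1) → ℤ) : Finset (Fin (k + 1) → Fin p → ℤ) :=
  (Fintype.piFinset (fun _ : Fin (k + 1) => Fintype.piFinset X)).filter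
    (fun x => ∀ j, ∑ i, x j i = ∑ i, x 0 i + v j)

/-- lower bound for the number of solutions -/
theorem ZZ_card {k p : ℕ} (X : Fin p → Finset ℤ) (v : Fin (k + 1) → ℤ) (hv0 : v 0 = 0) (E : Finset ℤ) (B : ℝ)
    (hB : 0 ≤ B) (hE : ∀ s ∈ E, ∀ j, B ≤ (sumsV X (s + v j) : ℝ)) :
    (E.card : ℝ) * B ^ (k + 1) ≤ ((ZZ X v).card : ℝ) := by
  set Zs : ℤ → Finset (Fin (k + 1) → Fin p → ℤ) := fun s =>
    Fintype.piFinset (fun j : Fin (k + 1) => (Fintype.piFinset X).filter
      (fun u => ∑ i, u i = s + v j)) with hZs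
  have hsum : ∀ s, ∀ x ∈ Zs s, ∑ i, x 0 i = s := by
    intro s x hx
    rw [hZs] at hx
    simp only [Fintype.mem_piFinset, Finset.mem_filter] at hx
    have := (hx 0).2
    rw [hv0, add_zero] at this
    exact this
  have hsub : E.biUnion Zs ⊆ ZZ X v := by
    intro x hx
    rw [Finset.mem_biUnion] at hx
    obtain ⟨s, _, hx⟩ := hx
    have h0 := hsum s x hx
    unfold ZZ
    rw [Finset.mem_filter]
    rw [hZs] at hx
    simp only [Fintype.mem_piFinset, Finset.mem_filter] at hx ⊢
    refine ⟨fun j => (hx j).1, fun j => ?_⟩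
    rw [(hx j).2, h0]
  have hdisj : ∀ s ∈ E, ∀ s' ∈ E, s ≠ s' → Disjoint (Zs s) (Zs s') := by
    intro s _ s' _ hne
    rw [Finset.disjoint_left]
    intro x hx hx'
    exact hne ((hsum s x hx).symm.trans (hsum s' x hx'))
  have hcard : (E.biUnion Zs).card = ∑ s ∈ E, (Zs s).card := Finset.card_biUnion hdisj
  have h1 : ∀ s ∈ E, B ^ (k + 1) ≤ ((Zs s).card : ℝ) := by
    intro s hs
    rw [hZs]
    simp only
    rw [Fintype.card_piFinset]
    push_cast
    calc B ^ (k + 1) = ∏ _j : Fin (k + 1), B := by simp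
      _ ≤ ∏ j : Fin (k + 1), ((((Fintype.piFinset X).filter
          (fun u => ∑ i, u i = s + v j)).card : ℕ) : ℝ) := by
        apply Finset.prod_le_prod
        · intro _ _; exact hB
        · intro j _; exact hE s hs j
  calc (E.card : ℝ) * B ^ (k + 1) = ∑ s ∈ E, B ^ (k + 1) := by rw [Finset.sum_const, nsmul_eq_mul]
    _ ≤ ∑ s ∈ E, ((Zs s).card : ℝ) := Finset.sum_le_sum h1
    _ = ((E.biUnion Zs).card : ℝ) := by rw [hcard]; push_cast; rfl
    _ ≤ _ := by exact_mod_cast Finset.card_le_card hsub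

/-- tuples with one fixed coordinate -/
theorem card_pi_one {n L : ℕ} (X : Fin (n + 1) → Finset ℤ) (hX : ∀ i, (X i).card ≤ L) (i : Fin (n + 1)) :
    (Fintype.piFinset (fun i' : Fin (n + 1) => if i' = i then ({0} : Finset ℤ) else X i')).card ≤ L ^ n := by
  rw [Fintype.card_piFinset]
  have : ∀ i' : Fin (n + 1), (if i' = i then ({0} : Finset ℤ) else X i').card ≤ if i' = i then 1 else L := by
    intro i'; split_ifs
    · simp
    · exact hX i'
  refine (Finset.prod_le_prod' fun i' _ => this i').trans ?_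
  rw [Finset.prod_ite, Finset.prod_const_one, one_mul, Finset.prod_const]
  apply le_of_eq
  congr 1
  have := Finset.card_filter_add_card_filter_not (s := (univ : Finset (Fin (n + 1)))) (fun i' => i' = i)
  rw [Finset.filter_eq' univ i, if_pos (Finset.mem_univ i), Finset.card_singleton, Finset.card_univ, Fintype.card_fin] at this
  omega

/-- tuples with two fixed coordinates -/
theorem card_pi_two {n L : ℕ} (X : Fin (n + 2) → Finset ℤ) (hX : ∀ i, (X i).card ≤ L) (i i₁ : Fin (n + 2))
    (h : i ≠ i₁) :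
    (Fintype.piFinset (fun i' : Fin (n + 2) => if i' = i ∨ i' = i₁ then ({0} : Finset ℤ) else X i')).card ≤
      L ^ n := by
  rw [Fintype.card_piFinset]
  have : ∀ i' : Fin (n + 2), (if i' = i ∨ i' = i₁ then ({0} : Finset ℤ) else X i').card ≤
      if i' = i ∨ i' = i₁ then 1 else L := by
    intro i'; split_ifs
    · simp
    · exact hX i'
  refine (Finset.prod_le_prod' fun i' _ => this i').trans ?_
  rw [Finset.prod_ite, Finset.prod_const_one, one_mul, Finset.prod_const]
  apply le_of_eq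
  congr 1
  have h1 := Finset.card_filter_add_card_filter_not (s := (univ : Finset (Fin (n + 2)))) (fun i' => i' = i ∨ i' = i₁)
  have h2 : (univ : Finset (Fin (n + 2))).filter (fun i' => i' = i ∨ i' = i₁) = {i, i₁} := by
    ext x; simp
  rw [h2, Finset.card_pair h, Finset.card_univ, Fintype.card_fin] at h1
  omega

/-- solutions with a bad tuple at the place `i` -/
theorem card_bad {k q L : ℕ} (X : Fin (q + 2) → Finset ℤ) (hX : ∀ i, (X i).card ≤ L) (v : Fin (k + 1) → ℤ) (i : Fin (q + 2)) (S : Finset (Fin (k + 1) → ℤ)) :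
    ((ZZ X v).filter (fun x => (fun j => x j i) ∈ S)).card ≤
      S.card * (L ^ (q + 1) * (L ^ q) ^ k) := by
  obtain ⟨i₁, hi₁⟩ : ∃ i₁ : Fin (q + 2), i ≠ i₁ := by
    by_cases h : i = 0
    · exact ⟨1, by rw [h]; simp⟩
    · exact ⟨0, h⟩
  refine le_trans ?_ (Nat.mul_le_mul_left _ (Nat.mul_le_mul (card_pi_one X hX i)
    (Nat.pow_le_pow_left (card_pi_two X hX i i₁ hi₁) k)))
  have e : (Fintype.piFinset (fun i' : Fin (q + 2) => if i' = i ∨ i' = i₁ then ({0} : Finset ℤ) else X i')).card ^ k =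
      (Fintype.piFinset (fun _ : Fin k => Fintype.piFinset
        (fun i' : Fin (q + 2) => if i' = i ∨ i' = i₁ then ({0} : Finset ℤ) else X i'))).card := by
    rw [Fintype.card_piFinset]; simp
  rw [e, ← Finset.card_product, ← Finset.card_product]
  apply Finset.card_le_card_of_injOn (fun x => ((fun j => x j i), (Function.update (x 0) i 0),
    (fun (j : Fin k) (i' : Fin (q + 2)) => if i' = i ∨ i' = i₁ then 0 else x j.succ i')))
  · intro x hx
    rw [Finset.mem_coe, Finset.mem_filter] at hx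
    obtain ⟨hx, hS⟩ := hx
    unfold ZZ at hx
    rw [Finset.mem_filter] at hx
    simp only [Fintype.mem_piFinset] at hx
    rw [Finset.mem_coe, Finset.mem_product, Finset.mem_product]
    refine ⟨hS, ?_, ?_⟩
    · rw [Fintype.mem_piFinset]
      intro i'
      by_cases hi : i' = i
      · rw [if_pos hi, hi]; dsimp only; rw [Function.update_self]; simp
      · rw [if_neg hi]; dsimp only; rw [Function.update_of_ne hi]; exact hx.1 0 i'
    · rw [Fintype.mem_piFinset]
      intro j
      rw [Fintype.mem_piFinset]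
      intro i'
      by_cases hi : i' = i ∨ i' = i₁
      · rw [if_pos hi]; simp only [if_pos hi]; simp
      · rw [if_neg hi]; simp only [if_neg hi]; exact hx.1 j.succ i'
  · intro x hx x' hx' h
    rw [Finset.mem_coe, Finset.mem_filter] at hx hx'
    have hx1 := hx.1
    have hx1' := hx'.1
    unfold ZZ at hx1 hx1'
    rw [Finset.mem_filter] at hx1 hx1'
    simp only [Prod.mk.injEq] at h
    obtain ⟨ha, hb, hc⟩ := h
    have ha' : ∀ j, x j i = x' j i := fun j => congrFun ha j
    have h0 : ∀ i', x 0 i' = x' 0 i' := by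
      intro i'
      by_cases hi : i' = i
      · rw [hi]; exact ha' 0
      · have := congrFun hb i'
        simp only [Function.update_of_ne hi] at this
        exact this
    have h1 : ∀ j : Fin k, ∀ i', i' ≠ i₁ → x j.succ i' = x' j.succ i' := by
      intro j i' hi
      by_cases hi2 : i' = i
      · rw [hi2]; exact ha' _
      · have := congrFun (congrFun hc j) i'
        have hno : ¬ (i' = i ∨ i' = i₁) := by tauto
        simp only [if_neg hno] at this
        exact this
    have h2 : ∀ j : Fin k, x j.succ i₁ = x' j.succ i₁ := by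
      intro j
      have e1 := hx1.2 j.succ
      have e2 := hx1'.2 j.succ
      have e3 : ∑ i', x 0 i' = ∑ i', x' 0 i' := Finset.sum_congr rfl fun i' _ => h0 i'
      have e4 : ∑ i', x j.succ i' = ∑ i', x' j.succ i' := by rw [e1, e2, e3]
      rw [← Finset.add_sum_erase _ _ (Finset.mem_univ i₁), ← Finset.add_sum_erase _ _ (Finset.mem_univ i₁)] at e4
      have e5 : ∑ i' ∈ univ.erase i₁, x j.succ i' = ∑ i' ∈ univ.erase i₁, x' j.succ i' := by
        apply Finset.sum_congr rfl
        intro i' hi'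
        exact h1 j i' (Finset.ne_of_mem_erase hi')
      rw [e5] at e4
      exact add_right_cancel e4
    funext j i'
    refine Fin.cases ?_ (fun j' => ?_) j
    · exact h0 i'
    · by_cases hi : i' = i₁
      · rw [hi]; exact h2 j'
      · exact h1 j' i' hi

open Classical in
theorem main : S_CNTG := by
  intro k p θ c τ hp hθ hθ1 hc hτ
  obtain ⟨q, rfl⟩ : ∃ q, p = q + 2 := ⟨p - 2, by omega⟩
  set κ : ℝ := (1 - (k + 1) * θ) / 2 with hκ
  have hκ0 : 0 < κ := by rw [hκ]; linarith
  set b : ℝ := κ * τ * c ^ (k + 1) with hb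
  have hb0 : 0 < b := by positivity
  refine ⟨b / (4 * (q + 2)), κ * τ / (k + 1), b / 2, by positivity, by positivity, by positivity,
    max 1 ⌈4 * (q + 2) * (k + 1) ^ 2 / b⌉₊, ?_⟩
  intro L hL X hX a T hT1 hT2 hD G hG v hv
  have hL1 : 1 ≤ L := (le_max_left _ _).trans hL
  have hL2 : 4 * (q + 2) * (k + 1) ^ 2 / b ≤ (L : ℝ) :=
    (Nat.le_ceil _).trans (by exact_mod_cast (le_max_right _ _).trans hL)
  have hL0 : (0 : ℝ) < L := by exact_mod_cast hL1
  have hXc : ∀ i, (X i).card ≤ L := by
    intro i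
    have := Finset.card_le_card (hX i)
    rw [Int.card_Ico] at this
    omega
  -- the lower bound
  obtain ⟨v', hv'⟩ : ∃ v' : Fin (k + 1) → ℤ, v' = Fin.cons 0 v := ⟨_, rfl⟩
  have hv'0 : v' 0 = 0 := by rw [hv']; rfl
  have hv's : ∀ j : Fin k, v' j.succ = v j := by intro j; rw [hv']; rfl
  obtain ⟨D, hDd⟩ : ∃ D : Finset ℤ, D = (Ico a (a + (T : ℤ))).filter
    (fun s => c * (L : ℝ) ^ (q + 2 - 1) ≤ (sumsV X s : ℝ)) := ⟨_, rfl⟩
  have hDc : (1 - θ) * T ≤ (D.card : ℝ) := by rw [hDd]; exact hD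
  have hDs : D ⊆ Ico a (a + (T : ℤ)) := by rw [hDd]; exact Finset.filter_subset _ _
  obtain ⟨E, hEd⟩ : ∃ E : Finset ℤ, E = (Ico a (a + (T : ℤ))).filter (fun s => ∀ j, s + v' j ∈ D) := ⟨_, rfl⟩
  have hEc : κ * T ≤ (E.card : ℝ) := by
    rw [hEd]
    refine E_card a T D hDs θ (κ * τ / (k + 1) * L) κ (by rw [hκ]; ring) hDc v' ?_ ?_
    · intro j
      refine Fin.cases ?_ (fun j' => ?_) j
      · rw [hv'0]; simp only [Int.cast_zero, abs_zero]; positivity
      · rw [hv's]; exact hv j'
    · have : (k + 1 : ℝ) * (κ * τ / (k + 1) * L) = κ * (τ * L) := by field_simp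
      rw [this]
      exact mul_le_mul_of_nonneg_left hT1 hκ0.le
  have hZ := ZZ_card X v' hv'0 E (c * (L : ℝ) ^ (q + 1)) (by positivity) (by
    intro s hs j
    rw [hEd, Finset.mem_filter] at hs
    have := hs.2 j
    rw [hDd, Finset.mem_filter] at this
    exact this.2)
  have hZ2 : b * (L : ℝ) ^ (1 + (q + 1) * (k + 1)) ≤ ((ZZ X v').card : ℝ) := by
    refine le_trans ?_ hZ
    calc b * (L : ℝ) ^ (1 + (q + 1) * (k + 1)) = (κ * (τ * L)) * (c * (L : ℝ) ^ (q + 1)) ^ (k + 1) := by
          rw [hb, mul_pow, ← pow_mul, pow_add, pow_one]; ring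
      _ ≤ (κ * T) * (c * (L : ℝ) ^ (q + 1)) ^ (k + 1) := by
          gcongr
      _ ≤ _ := by gcongr
  -- the bad tuples
  obtain ⟨S, hS⟩ : ∃ S : Fin (q + 2) → Finset (Fin (k + 1) → ℤ), S = fun i =>
    (Fintype.piFinset (fun _ : Fin (k + 1) => X i)).filter
    (fun y => ¬ (Function.Injective y ∧ G i y)) := ⟨_, rfl⟩
  have hSc : ∀ i, ((S i).card : ℝ) ≤ b / (4 * (q + 2)) * (L : ℝ) ^ (k + 1) + (k + 1) ^ 2 * (L : ℝ) ^ k := by
    intro i
    have h1 : S i ⊆ (Fintype.piFinset (fun _ : Fin (k + 1) => X i)).filter (fun y => Function.Injective y ∧ ¬ G i y) ∪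
        (Fintype.piFinset (fun _ : Fin (k + 1) => X i)).filter (fun y => ¬ Function.Injective y) := by
      intro y hy
      rw [hS, Finset.mem_filter] at hy
      rw [Finset.mem_union, Finset.mem_filter, Finset.mem_filter]
      by_cases hi : Function.Injective y
      · left
        exact ⟨hy.1, hi, fun hG => hy.2 ⟨hi, hG⟩⟩
      · right
        exact ⟨hy.1, hi⟩
    have h2 := (Finset.card_le_card h1).trans (Finset.card_union_le _ _)
    have h3 := Pool.Agent.N327.SF_CNT.card_not_inj (k := k) (X i)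
    have h4 : (((Fintype.piFinset (fun _ : Fin (k + 1) => X i)).filter
        (fun y => ¬ Function.Injective y)).card : ℝ) ≤ (k + 1) ^ 2 * (L : ℝ) ^ k := by
      have h5 : ((Fintype.piFinset (fun _ : Fin (k + 1) => X i)).filter
        (fun y => ¬ Function.Injective y)).card ≤ (k + 1) ^ 2 * L ^ k := by
        refine le_trans ?_ (h3.trans (Nat.mul_le_mul_left _ (Nat.pow_le_pow_left (hXc i) k)))
        apply le_of_eq
        congr 1
      exact_mod_cast h5
    have h6 : ((S i).card : ℝ) ≤ (((Fintype.piFinset (fun _ : Fin (k + 1) => X i)).filter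
        (fun y => Function.Injective y ∧ ¬ G i y)).card : ℝ) + (((Fintype.piFinset (fun _ : Fin (k + 1) => X i)).filter
        (fun y => ¬ Function.Injective y)).card : ℝ) := by exact_mod_cast h2
    linarith [hG i]
  obtain ⟨Gd, hGd⟩ : ∃ Gd : Finset (Fin (k + 1) → Fin (q + 2) → ℤ), Gd = (ZZ X v').filter
    (fun x => ∀ i, Function.Injective (fun j => x j i) ∧ G i (fun j => x j i)) := ⟨_, rfl⟩
  have hcov : (ZZ X v').card ≤ Gd.card + ∑ i, (S i).card * (L ^ (q + 1) * (L ^ q) ^ k) := by
    have h1 : ZZ X v' ⊆ Gd ∪ (univ : Finset (Fin (q + 2))).biUnion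
        (fun i => (ZZ X v').filter (fun x => (fun j => x j i) ∈ S i)) := by
      intro x hx
      rw [Finset.mem_union]
      by_cases hg : ∀ i, Function.Injective (fun j => x j i) ∧ G i (fun j => x j i)
      · left
        rw [hGd, Finset.mem_filter]
        exact ⟨hx, hg⟩
      · right
        push Not at hg
        obtain ⟨i, hi⟩ := hg
        rw [Finset.mem_biUnion]
        refine ⟨i, Finset.mem_univ _, ?_⟩
        rw [Finset.mem_filter]
        refine ⟨hx, ?_⟩
        rw [hS, Finset.mem_filter, Fintype.mem_piFinset]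
        refine ⟨fun j => ?_, fun h => hi h.1 h.2⟩
        unfold ZZ at hx
        rw [Finset.mem_filter] at hx
        simp only [Fintype.mem_piFinset] at hx
        exact hx.1 j i
    refine (Finset.card_le_card h1).trans ((Finset.card_union_le _ _).trans ?_)
    refine add_le_add le_rfl (Finset.card_biUnion_le.trans ?_)
    exact Finset.sum_le_sum fun i _ => card_bad X hXc v' i (S i)
  -- the good ones
  have hgood : Gd.card ≤ ((Fintype.piFinset (fun _ : Fin (q + 2) => Fintype.piFinset (fun _ : Fin k =>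
          Ioo (-(L : ℤ)) L))).filter (SolV X G v)).card * L ^ (q + 2) := by
    have h1 : Gd.card ≤ ((Fintype.piFinset (fun _ : Fin (q + 2) => Fintype.piFinset (fun _ : Fin k =>
          Ioo (-(L : ℤ)) L))).filter (SolV X G v) ×ˢ Fintype.piFinset X).card := by
      apply Finset.card_le_card_of_injOn (fun x => ((fun i j => x (Fin.succ j) i - x 0 i), x 0))
      · intro x hx
        rw [Finset.mem_coe, hGd, Finset.mem_filter] at hx
        obtain ⟨hx, hg⟩ := hx
        unfold ZZ at hx
        rw [Finset.mem_filter] at hx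
        simp only [Fintype.mem_piFinset] at hx
        rw [Finset.mem_coe, Finset.mem_product]
        refine ⟨?_, ?_⟩
        · rw [Finset.mem_filter]
          refine ⟨?_, ?_, ?_⟩
          · rw [Fintype.mem_piFinset]
            intro i
            rw [Fintype.mem_piFinset]
            intro j
            dsimp only
            have e1 := Finset.mem_Ico.1 (hX i (hx.1 j.succ i))
            have e2 := Finset.mem_Ico.1 (hX i (hx.1 0 i))
            rw [Finset.mem_Ioo]
            omega
          · intro j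
            dsimp only
            rw [Finset.sum_sub_distrib, hx.2 j.succ, hv's]
            ring
          · intro i
            refine ⟨fun j => x j i, fun j => hx.1 j i, (hg i).1, (hg i).2, fun j => rfl⟩
        · rw [Fintype.mem_piFinset]
          intro i
          exact hx.1 0 i
      · intro x _ x' _ h
        simp only [Prod.mk.injEq] at h
        obtain ⟨h1, h2⟩ := h
        funext j i
        refine Fin.cases ?_ (fun j' => ?_) j
        · exact congrFun h2 i
        · have e1 := congrFun (congrFun h1 i) j'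
          have e2 := congrFun h2 i
          linarith
    refine h1.trans ?_
    rw [Finset.card_product]
    apply Nat.mul_le_mul_left
    rw [Fintype.card_piFinset]
    refine (Finset.prod_le_prod' fun i _ => hXc i).trans ?_
    rw [Finset.prod_const, Finset.card_univ, Fintype.card_fin]
  -- conclusion
  have hbadR : ∑ i, ((S i).card : ℝ) * ((L : ℝ) ^ (q + 1) * ((L : ℝ) ^ q) ^ k) ≤
      b / 2 * (L : ℝ) ^ (1 + (q + 1) * (k + 1)) := by
    calc ∑ i, ((S i).card : ℝ) * ((L : ℝ) ^ (q + 1) * ((L : ℝ) ^ q) ^ k)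
        ≤ ∑ _i : Fin (q + 2), (b / (4 * (q + 2)) * (L : ℝ) ^ (k + 1) + (k + 1) ^ 2 * (L : ℝ) ^ k) *
          ((L : ℝ) ^ (q + 1) * ((L : ℝ) ^ q) ^ k) := by
          refine Finset.sum_le_sum fun i _ => ?_
          exact mul_le_mul_of_nonneg_right (hSc i) (by positivity)
      _ = ((q + 2 : ℕ) : ℝ) * ((b / (4 * (q + 2)) * (L : ℝ) ^ (k + 1) + (k + 1) ^ 2 * (L : ℝ) ^ k) *
          ((L : ℝ) ^ (q + 1) * ((L : ℝ) ^ q) ^ k)) := by
          rw [Finset.sum_const, Finset.card_univ, Fintype.card_fin, nsmul_eq_mul]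
      _ = b / 4 * (L : ℝ) ^ (1 + (q + 1) * (k + 1)) + ((q + 2) * (k + 1) ^ 2) * (L : ℝ) ^ ((q + 1) * (k + 1)) := by
          have e1 : (L : ℝ) ^ (k + 1) * ((L : ℝ) ^ (q + 1) * ((L : ℝ) ^ q) ^ k) = (L : ℝ) ^ (1 + (q + 1) * (k + 1)) := by
            rw [← pow_mul, ← pow_add, ← pow_add]; congr 1; ring
          have e2 : (L : ℝ) ^ k * ((L : ℝ) ^ (q + 1) * ((L : ℝ) ^ q) ^ k) = (L : ℝ) ^ ((q + 1) * (k + 1)) := by
            rw [← pow_mul, ← pow_add, ← pow_add]; congr 1; ring
          rw [← e1, ← e2]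
          push_cast
          field_simp
      _ ≤ b / 4 * (L : ℝ) ^ (1 + (q + 1) * (k + 1)) + (b / 4 * L) * (L : ℝ) ^ ((q + 1) * (k + 1)) := by
          have h7 : ((q : ℝ) + 2) * (k + 1) ^ 2 ≤ b / 4 * L := by
            rw [div_le_iff₀ hb0] at hL2
            linarith
          exact add_le_add le_rfl (mul_le_mul_of_nonneg_right h7 (by positivity))
      _ = b / 2 * (L : ℝ) ^ (1 + (q + 1) * (k + 1)) := by
          rw [pow_add, pow_one]; ring
  have hcovR : ((ZZ X v').card : ℝ) ≤ (Gd.card : ℝ) +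
      ∑ i, ((S i).card : ℝ) * ((L : ℝ) ^ (q + 1) * ((L : ℝ) ^ q) ^ k) := by exact_mod_cast hcov
  have hgoodR : (Gd.card : ℝ) ≤ ((((Fintype.piFinset (fun _ : Fin (q + 2) => Fintype.piFinset (fun _ : Fin k =>
          Ioo (-(L : ℤ)) L))).filter (SolV X G v)).card : ℕ) : ℝ) * (L : ℝ) ^ (q + 2) := by
    exact_mod_cast hgood
  have hfin : b / 2 * (L : ℝ) ^ ((q + 2 - 1) * k) * (L : ℝ) ^ (q + 2) ≤
      ((((Fintype.piFinset (fun _ : Fin (q + 2) => Fintype.piFinset (fun _ : Fin k =>
          Ioo (-(L : ℤ)) L))).filter (SolV X G v)).card : ℕ) : ℝ) * (L : ℝ) ^ (q + 2) := by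
    refine le_trans ?_ hgoodR
    have e : (L : ℝ) ^ ((q + 2 - 1) * k) * (L : ℝ) ^ (q + 2) = (L : ℝ) ^ (1 + (q + 1) * (k + 1)) := by
      rw [← pow_add]; congr 1
      have : q + 2 - 1 = q + 1 := by omega
      rw [this]; ring
    rw [mul_assoc, e]
    linarith
  exact le_of_mul_le_mul_right hfin (by positivity)

end Pool.Agent.N99.SF_CNTG
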