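import Mathlib
import Pool.Agent.N709.UM.Stm2

set_option autoImplicit false

open Filter Topology

universe u

namespace Pool.Agent.N99.UM2PWC
open Pool.Agent.N709.UM

lemma pn_nonneg {G : Type u} [Group G] {ρ : G → ℝ} (h : PN ρ) (g : G) : 0 ≤ ρ g := by
  have h1 := h.mul g g⁻¹
  rw [mul_inv_cancel, h.one, h.inv] at h1
  linarith

lemma tendsto_of {G : Type u} [Group G] [TopologicalSpace G] [IsTopologicalGroup G]
    {ρ : G → ℝ} (hρ : Gen ρ) {l : Filter G} (f : G → G) (x : G)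
    (h : ∀ ε > 0, ∀ᶠ b in l, ρ (f b * x⁻¹) < ε) : Tendsto f l (𝓝 x) := by
  have h1 : Tendsto (fun b => f b * x⁻¹) l (𝓝 1) := by
    intro U hU
    obtain ⟨r, hr, hrU⟩ := hρ.gen U hU
    exact (h r hr).mono fun b hb => hrU _ hb
  have h2 := h1.mul_const x
  simpa using h2

theorem pwc : Pool.Agent.N709.UM.Pwc.{u} := by
  intro G _ _ _ ρ hρ F hF M a
  induction M with
  | zero =>
    simp only [pow_zero, mul_one]
    exact tendsto_const_nhds
  | succ M ih =>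
    have key : Tendsto (fun b : G => b⁻¹ * ((a * b⁻¹) ^ M * b ^ M) * b) F (𝓝 (a ^ M)) := by
      apply tendsto_of hρ
      intro ε hε
      have e1 : ∀ᶠ b in (F : Filter G), ρ (((a * b⁻¹) ^ M * b ^ M) * (a ^ M)⁻¹) < ε / 4 := by
        have h3 : Tendsto (fun b : G => ρ (((a * b⁻¹) ^ M * b ^ M) * (a ^ M)⁻¹)) F (𝓝 0) := by
          have h4 := (hρ.cont.tendsto (a ^ M * (a ^ M)⁻¹)).comp (ih.mul_const (a ^ M)⁻¹)
          rw [mul_inv_cancel, hρ.pn.one] at h4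
          exact h4
        exact h3.eventually (gt_mem_nhds (by positivity))
      have e2 : ∀ᶠ b in (F : Filter G), ∀ c, ρ (b * c * b⁻¹) ≤ ρ c + ε / 4 ∧
          ρ (b⁻¹ * c * b) ≤ ρ c + ε / 4 := hF.inv (ε / 4) (by positivity)
      have e3 : ∀ᶠ b in (F : Filter G), ρ (b * a ^ M * b⁻¹ * (a ^ M)⁻¹) < ε / 4 ∧
          ρ (b⁻¹ * a ^ M * b * (a ^ M)⁻¹) < ε / 4 := hF.com (ε / 4) (by positivity) (a ^ M)
      filter_upwards [e1, e2, e3] with b h1 h2 h3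
      have h4 : b⁻¹ * ((a * b⁻¹) ^ M * b ^ M) * b * (a ^ M)⁻¹
          = (b⁻¹ * (((a * b⁻¹) ^ M * b ^ M) * (a ^ M)⁻¹) * b) * (b⁻¹ * a ^ M * b * (a ^ M)⁻¹) := by
        group
      rw [h4]
      have h5 := hρ.pn.mul (b⁻¹ * (((a * b⁻¹) ^ M * b ^ M) * (a ^ M)⁻¹) * b)
        (b⁻¹ * a ^ M * b * (a ^ M)⁻¹)
      have h6 := (h2 (((a * b⁻¹) ^ M * b ^ M) * (a ^ M)⁻¹)).2
      linarith [h3.2]
    have h7 := key.const_mul a
    have h8 : (fun b : G => (a * b⁻¹) ^ (M + 1) * b ^ (M + 1))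
        = fun b : G => a * (b⁻¹ * ((a * b⁻¹) ^ M * b ^ M) * b) := by
      funext b
      rw [pow_succ' (a * b⁻¹) M, pow_succ b M]
      simp only [mul_assoc]
    rw [h8, pow_succ' a M]
    exact h7

end Pool.Agent.N99.UM2PWC
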